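import Pool.Agent.Benson271.Block

/-! An order criterion for endotrivial classes in the semisimplification of `rep α_p(r,s)`.

Let `V` be a finite-dimensional representation of `α_p(r,s)` over a field `k` of characteristic `p`
and let `z = a_0 x + a_1 x^p + ... + b_0 y + b_1 y^p + ...` be primitive. Suppose that on
`V^{⊗d}` the operator `z` has one Jordan block of length `1` and all others of length divisible by
`p`, and that `V^{⊗dn}` has an `α_p(r,s)`-fixed vector outside the image of `z`, or a fixed
functional which does not vanish on the kernel of `z`. Then `V` is `p'`-invertible, and its class in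
the semisimplification has infinite order or order dividing `d n`. -/

namespace Pool.Agent.Results.MP_b3c5de_al.OrderCriterion

open Pool.Agent.Benson271 Pool.Agent.Benson271.ARep

universe u

theorem result {p r s : ℕ} [Fact p.Prime] {k : Type u} [Field k] [CharP k p]
    (V : ARep p r s k) (a b : ℕ → k) (d n : ℕ) (hd : 0 < d) (hn : 0 < n)
    (hV : OneBlock p (prim a b (V.pow d)))
    (h : HasFixed a b (V.pow (d * n)) ∨ HasCofixed a b (V.pow (d * n))) :
    PInvertible V ∧
      ((∀ m, 0 < m → ¬ IsSummand triv (V.pow m)) ∨
        ∃ N, 0 < N ∧ N ∣ d * n ∧ ∀ m, 0 < m → (SSTrivial (V.pow m) ↔ N ∣ m)) := by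
  obtain ⟨h1, h2⟩ := order_theorem V a b d n hd hn hV.et h
  refine ⟨h1, ?_⟩
  rcases h2 with h2 | ⟨N, h3, h4, h5⟩
  · exact Or.inl h2
  · exact Or.inr ⟨N, h3, h4, fun m hm => (h5 m hm).2⟩

end Pool.Agent.Results.MP_b3c5de_al.OrderCriterion
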